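import Mathlib

namespace Pool.Agent.H.MP_9ac7bc_an

open Filter Topology Real Finset Metric

lemma dav1 (A : ℕ → Prop) [DecidablePred A] {Q : ℝ} (Q0 : 0 < Q) (h1 : ∀ m, 0 < m → A m → Q ≤ m)
    (h2 : ∀ m d, 0 < m → 0 < d → A m → A (m + d) → Q ≤ d) :
    ∃ g : ℕ → ℝ, (∀ m, 0 ≤ g m) ∧ (∀ m, g m ≤ 2 * m / Q) ∧
      ∀ p q, g p + g q + (if A (p + q + 1) then 1 else 0) ≤ g (p + q + 1) := by
  obtain ⟨u, hu⟩ : ∃ u : ℕ → ℝ, ∀ m, u m = 2 * m / Q := ⟨_, fun _ => rfl⟩
  have um : ∀ {m n}, m ≤ n → u m ≤ u n := fun h => by rw [hu, hu]; gcongr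
  have u0 : ∀ m, 0 ≤ u m := fun m => by rw [hu]; positivity
  have ua : ∀ m n, u (m + n) = u m + u n := fun m n => by simp only [hu]; push_cast; ring
  have uQ : ∀ m : ℕ, Q ≤ m → 2 ≤ u m := fun m h => by rw [hu, le_div_iff₀ Q0]; linarith
  let g : ℕ → ℝ := fun m => max 0 (max (u (Nat.findGreatest A m) - 1) (u m - 2))
  have g0 : ∀ m, 0 ≤ g m := fun m => le_max_left _ _
  have g1 : ∀ m, g m = 0 ∨ g m ≤ u m - 1 := fun m => by
    rcases le_total (max (u (Nat.findGreatest A m) - 1) (u m - 2)) 0 with h | h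
    · exact .inl (max_eq_left h)
    · exact .inr ((max_eq_right h).trans_le
        (max_le (by linarith [um (Nat.findGreatest_le (P := A) m)]) (by linarith)))
  have g2 : ∀ m, u m - 2 ≤ g m := fun m => le_max_of_le_right (le_max_right _ _)
  have gm : ∀ {m n}, m ≤ n → g m ≤ g n := fun h => max_le_max le_rfl (max_le_max
    (by linarith [um (Nat.findGreatest_mono_right A h)]) (by linarith [um h]))
  have g3 : ∀ p m, p < m → A m → g p ≤ u m - 2 := fun p m h a => by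
    have := uQ m (h1 m (by omega) a)
    refine max_le (by linarith) (max_le ?_ (by linarith [um h.le]))
    by_cases z : Nat.findGreatest A p = 0
    · rw [z, hu]; simp; linarith
    · obtain ⟨d, rfl⟩ := Nat.exists_eq_add_of_lt ((Nat.findGreatest_le (P := A) p).trans_lt h)
      have := uQ _ (h2 _ (d + 1) (Nat.pos_of_ne_zero z) d.succ_pos
        ((Nat.findGreatest_eq_iff.1 rfl).2.1 z) a)
      rw [add_assoc, ua]
      linarith
  refine ⟨g, g0, fun m => hu m ▸ (g1 m).elim (fun h => h.trans_le (u0 m)) fun h => by linarith,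
    fun p q => ?_⟩
  have e : u p + u q ≤ u (p + q + 1) := ua p q ▸ um (Nat.le_succ _)
  split_ifs with a
  · have : u (p + q + 1) - 1 ≤ g (p + q + 1) :=
      le_max_of_le_right (le_max_of_le_left (by rw [Nat.findGreatest_eq a]))
    have a1 := g3 p _ (by omega) a
    have a2 := g3 q _ (by omega) a
    rcases g1 p with h | h <;> rcases g1 q with k | k <;> linarith
  · have a1 := gm (show p ≤ p + q + 1 by omega)
    have a2 := gm (show q ≤ p + q + 1 by omega)
    have := g2 (p + q + 1)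
    rcases g1 p with h | h <;> rcases g1 q with k | k <;> linarith

lemma tpe (r : ℕ) : (2 : ℝ) ^ r ≤ exp r := by
  rw [← mul_one (r : ℝ), exp_nat_mul]
  exact pow_le_pow_left₀ zero_le_two (by linarith [add_one_le_exp (1 : ℝ)]) r

lemma davie {ε : ℕ → ℝ} (h1 : ∀ m, 0 < m → 1 ≤ m * ε m) (h2 : ∀ m d, ε d ≤ ε (m + d) + ε m)
    (N : ℕ) : ∃ L : ℕ → ℝ, (∀ m, 0 ≤ L m) ∧ (∀ m, L m ≤ 4 * m) ∧
      ∀ p q, p + q + 1 ≤ N → exp (L p + L q) ≤ 2 * ε (p + q + 1) * exp (L (p + q + 1)) := by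
  classical
  have k1 : ∀ (k m : ℕ), 0 < m → ε m < (2 ^ k)⁻¹ → (2 : ℝ) ^ k ≤ m := fun k m m0 h => by
    have := (h1 m m0).trans (mul_le_mul_of_nonneg_left h.le m.cast_nonneg)
    rwa [← div_eq_mul_inv, one_le_div (by positivity)] at this
  have hf : ∀ k : ℕ, ((2 : ℝ) ^ (k + 1))⁻¹ + (2 ^ (k + 1))⁻¹ = (2 ^ k)⁻¹ := fun k => by
    field_simp; ring
  choose g g0 g1 g2 using fun k : ℕ => dav1 (fun m => ε m < (2 ^ (k + 1))⁻¹) (Q := 2 ^ k)
    (by positivity) (fun m m0 h => k1 k m m0 (by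
      have : (0 : ℝ) < (2 ^ (k + 1))⁻¹ := by positivity
      linarith [hf k])) fun m d _ d0 a b => k1 k d d0 (by linarith [hf k, h2 m d])
  refine ⟨fun m => ∑ k ∈ range N, g k m, fun m => sum_nonneg fun k _ => g0 k m,
    fun m => (sum_le_sum fun k _ => g1 k m).trans ?_, fun p q h => ?_⟩
  · have := mul_le_mul_of_nonneg_left (sum_geometric_two_le N) (show (0 : ℝ) ≤ 2 * m by positivity)
    rw [mul_sum] at this
    exact (sum_congr rfl fun k _ => by simp [div_eq_mul_inv]).trans_le (this.trans_eq (by ring))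
  have s := sum_le_sum fun k (_ : k ∈ range N) => g2 k p q
  rw [sum_add_distrib, sum_add_distrib] at s
  generalize hm : p + q + 1 = m at *
  have ex : ∃ k, k ≤ N ∧ ¬ε m < (2 ^ (k + 1))⁻¹ := ⟨N, le_rfl, fun c => by
    have := k1 _ m (by omega) c
    have : 2 ^ (N + 1) ≤ m := by exact_mod_cast this
    have := Nat.lt_two_pow_self (n := N + 1)
    omega⟩
  obtain ⟨r1, r2⟩ := Nat.find_spec ex
  have r3 : (Nat.find ex : ℝ) ≤ ∑ k ∈ range N, if ε m < (2 ^ (k + 1))⁻¹ then (1 : ℝ) else 0 := by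
    refine le_trans (le_of_eq ?_) (sum_le_sum_of_subset_of_nonneg (range_subset_range.2 r1)
      fun _ _ _ => by positivity)
    rw [sum_congr rfl fun k hk => if_pos (not_not.1 fun c =>
      Nat.find_min ex (mem_range.1 hk) ⟨(mem_range.1 hk).le.trans r1, c⟩)]
    simp
  generalize Nat.find ex = r at *
  have e2 := tpe r
  have e3 : 1 ≤ 2 * ε m * exp r := by
    rw [not_lt, inv_le_iff_one_le_mul₀ (by positivity), pow_succ] at r2
    have : 0 ≤ ε m := by
      by_contra c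
      nlinarith [mul_pos (neg_pos.2 (not_le.1 c)) (show (0 : ℝ) < 2 ^ r by positivity)]
    nlinarith [mul_le_mul_of_nonneg_left e2 this]
  have e0 : 0 ≤ 2 * ε m := (pos_of_mul_pos_left (one_pos.trans_le e3) (exp_pos _).le).le
  refine (le_mul_of_one_le_left (exp_pos _).le e3).trans ?_
  rw [mul_assoc, ← exp_add]
  gcongr
  linarith

noncomputable def lam : ℂ := Complex.exp (Complex.I * (2 * π * √2 : ℝ))

lemma lam_norm : ‖lam‖ = 1 := Complex.norm_exp_I_mul_ofReal _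

lemma lam_pow (m : ℕ) (j : ℤ) :
    lam ^ m = Complex.exp (Complex.I * (2 * π * (m * √2 - j) : ℝ)) := by
  rw [lam, ← Complex.exp_nat_mul, Complex.exp_eq_exp_iff_exists_int]
  exact ⟨j, by push_cast; ring⟩

lemma dio (m : ℕ) (m0 : 0 < m) (j : ℤ) (h : |m * √2 - j| ≤ 1 / 2) : 1 ≤ 4 * m * |m * √2 - j| := by
  have s : √2 * √2 = 2 := mul_self_sqrt zero_le_two
  have s0 : 0 ≤ √2 := sqrt_nonneg 2
  have m1 : (1 : ℝ) ≤ m := by exact_mod_cast m0
  have a : (2 * m ^ 2 - j ^ 2 : ℤ) ≠ 0 := fun c => by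
    have c : (2 * m ^ 2 - j ^ 2 : ℝ) = 0 := by exact_mod_cast c
    refine (irrational_sqrt_two.natCast_mul m0.ne').ne_int |j| ?_
    rw [Int.cast_abs, ← abs_of_nonneg (show 0 ≤ m * √2 by positivity), ← sq_eq_sq_iff_abs_eq_abs]
    linear_combination c + m ^ 2 * s
  have b : (1 : ℝ) ≤ |(2 * m ^ 2 - j ^ 2 : ℝ)| := by exact_mod_cast Int.one_le_abs a
  rw [show (2 * m ^ 2 - j ^ 2 : ℝ) = (m * √2 + j) * (m * √2 - j) by
    linear_combination -(m : ℝ) ^ 2 * s, abs_mul] at b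
  refine b.trans (mul_le_mul_of_nonneg_right ?_ (abs_nonneg _))
  have : √2 ≤ 3 / 2 := by nlinarith
  rw [abs_le] at h ⊢
  constructor <;> nlinarith

lemma lam_lo (m : ℕ) (m0 : 0 < m) : 1 ≤ m * ‖lam ^ m - 1‖ := by
  have h := abs_sub_round (m * √2)
  have := mul_abs_le_abs_sin (x := π * (m * √2 - round (m * √2))) (by
    rw [abs_mul, abs_of_pos pi_pos]
    nlinarith [pi_pos])
  rw [abs_mul, abs_of_pos pi_pos, ← mul_assoc, div_mul_cancel₀ _ pi_ne_zero] at this
  rw [lam_pow m (round (m * √2)), Complex.norm_exp_I_mul_ofReal_sub_one, norm_mul, norm_eq_abs,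
    norm_eq_abs, abs_two, mul_assoc, mul_div_cancel_left₀ _ two_ne_zero]
  nlinarith [dio m m0 _ h, mul_le_mul_of_nonneg_left this (m.cast_nonneg : (0 : ℝ) ≤ m)]

lemma lam_hi (M : ℕ) : ∃ q, M ≤ q ∧ q * ‖lam ^ q - 1‖ ≤ 7 := by
  obtain ⟨q, q0, q1, h⟩ := exists_nat_abs_mul_sub_round_le √2 (n := 4 * M + 1) (by omega)
  have d := dio q q0 _ (abs_sub_round _)
  have a : (0 : ℝ) < (4 * M + 1 : ℕ) + 1 := by positivity
  rw [le_div_iff₀ a] at h
  have q1 : (q : ℝ) ≤ (4 * M + 1 : ℕ) := by exact_mod_cast q1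
  have z := abs_nonneg (q * √2 - round (q * √2))
  refine ⟨q, ?_, ?_⟩
  · by_contra c
    have : (q : ℝ) ≤ M := by exact_mod_cast (not_le.1 c).le
    push_cast at h
    have hz : 0 < |q * √2 - round (q * √2)| := z.lt_of_ne fun e => by
      rw [← e] at d; linarith
    nlinarith
  · rw [lam_pow q (round (q * √2))]
    refine (mul_le_mul_of_nonneg_left norm_exp_I_mul_ofReal_sub_one_le q.cast_nonneg).trans ?_
    rw [norm_mul, norm_eq_abs, norm_eq_abs, abs_of_pos two_pi_pos]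
    have : q * |q * √2 - round (q * √2)| ≤ 1 := by nlinarith
    nlinarith [pi_lt_d2, pi_pos]

instance : HasAntidiagonal (ℕ × ℕ) where
  antidiagonal n := (antidiagonal n.1 ×ˢ antidiagonal n.2).map
    (Equiv.prodProdProdComm ℕ ℕ ℕ ℕ).toEmbedding
  mem_antidiagonal := by simp [Prod.ext_iff]

lemma cat (n : ℕ) : catalan (n + 1) ≤ 4 * catalan n := by
  have a := succ_mul_catalan_eq_centralBinom n
  have b := succ_mul_catalan_eq_centralBinom (n + 1)
  have c := Nat.succ_mul_centralBinom_succ n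
  rw [← a, ← b] at c
  have : (n + 1 + 1) * catalan (n + 1) = 2 * (2 * n + 1) * catalan n :=
    Nat.eq_of_mul_eq_mul_left (show 0 < n + 1 by omega) (by rw [c]; ring)
  refine Nat.le_of_mul_le_mul_left ?_ (show 0 < n + 1 + 1 by omega)
  nlinarith [Nat.zero_le (catalan n)]

noncomputable def kap (n : ℕ × ℕ) : ℝ := catalan n.1 * catalan n.2

lemma kap_sum (n : ℕ × ℕ) : ∑ x ∈ antidiagonal n, kap x.1 * kap x.2 ≤ 16 * kap n := by
  have : ∑ x ∈ antidiagonal n, kap x.1 * kap x.2 = catalan (n.1 + 1) * catalan (n.2 + 1) := by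
    change ∑ x ∈ Finset.map _ _, _ = _
    rw [sum_map, sum_product, catalan_succ', catalan_succ']
    push_cast
    rw [sum_mul_sum]
    exact sum_congr rfl fun a _ => sum_congr rfl fun b _ => by simp [kap]; ring
  rw [this, kap]
  exact_mod_cast (Nat.mul_le_mul (cat n.1) (cat n.2)).trans_eq (by ring)

lemma kap_le (n : ℕ × ℕ) : kap n ≤ 4 ^ (n.1 + n.2) := by
  have : ∀ n, catalan n ≤ 4 ^ n := fun n => by
    induction n with
    | zero => simp
    | succ n ih => exact (cat n).trans (by rw [pow_succ']; gcongr)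
  rw [kap, pow_add]
  exact_mod_cast Nat.mul_le_mul (this _) (this _)

noncomputable def nu (n : ℕ × ℕ) : ℂ := lam ^ n.1 * 2⁻¹ ^ n.2

lemma nu_add (m n : ℕ × ℕ) : nu (m + n) = nu m * nu n := by simp [nu, pow_add]; ring

lemma nu_norm (n : ℕ × ℕ) : ‖nu n‖ = 2⁻¹ ^ n.2 := by simp [nu, lam_norm]

lemma dv (n : ℕ × ℕ) {m : ℕ} (h : n.1 + n.2 = m + 1) :
    ‖nu n‖ * ‖lam ^ m - 1‖ ≤ 4 * ‖(nu n - lam) * (nu n - 2⁻¹)‖ := by
  obtain ⟨i, j⟩ := n
  have a := norm_sub_norm_le lam (nu (i, j))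
  have b := norm_sub_norm_le (nu (i, j)) 2⁻¹
  have c := norm_sub_norm_le 2⁻¹ (nu (i, j))
  have d := norm_sub_le (lam ^ m) 1
  rw [norm_sub_rev] at a c
  rw [norm_mul]
  simp only [nu_norm, lam_norm, norm_inv, Complex.norm_ofNat, norm_pow, one_pow, norm_one] at *
  have z := norm_nonneg (lam ^ m - 1)
  rcases j with _ | _ | j
  · have : nu (i, 0) - lam = lam * (lam ^ m - 1) := by simp [nu, show i = m + 1 from h]; ring
    rw [this, norm_mul, lam_norm]
    nlinarith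
  · have : nu (i, 0 + 1) - 2⁻¹ = 2⁻¹ * (lam ^ m - 1) := by
      simp [nu, show i = m by omega]; ring
    rw [this, norm_mul, norm_inv, Complex.norm_ofNat]
    nlinarith
  · have e : (2⁻¹ : ℝ) ^ (j + 1 + 1) ≤ 4⁻¹ := by
      have : (2⁻¹ : ℝ) ^ j ≤ 1 := pow_le_one₀ (by norm_num) (by norm_num)
      rw [pow_succ, pow_succ]; linarith
    have e0 : (0 : ℝ) ≤ 2⁻¹ ^ (j + 1 + 1) := by positivity
    nlinarith [mul_le_mul a c (by linarith) (norm_nonneg _)]

noncomputable def cc (n : ℕ × ℕ) : ℂ :=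
  if n.1 + n.2 = 1 then 1 else nu n / ((nu n - lam) * (nu n - 2⁻¹)) *
    ∑ x ∈ antidiagonal n, if x.1.1 + x.1.2 < n.1 + n.2 ∧ x.2.1 + x.2.2 < n.1 + n.2 then
      cc x.1 * cc x.2 else 0
termination_by n.1 + n.2
decreasing_by all_goals omega

lemma cc0 : cc 0 = 0 := by rw [cc]; simp

lemma cc1 {n : ℕ × ℕ} (h : n.1 + n.2 = 1) : cc n = 1 := by rw [cc, if_pos h]

lemma cc2 {n : ℕ × ℕ} (h : n.1 + n.2 ≠ 1) :
    cc n = nu n / ((nu n - lam) * (nu n - 2⁻¹)) * ∑ x ∈ antidiagonal n, cc x.1 * cc x.2 := by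
  rw [cc, if_neg h]
  congr 1
  refine sum_congr rfl fun x hx => ite_eq_left_iff.2 fun c => ?_
  rw [HasAntidiagonal.mem_antidiagonal, Prod.ext_iff, Prod.fst_add, Prod.snd_add] at hx
  have : x.1 = 0 ∨ x.2 = 0 := by simp only [Prod.ext_iff, Prod.fst_zero, Prod.snd_zero]; omega
  rcases this with e | e <;> simp [e, cc0]

lemma cc_eq (n : ℕ × ℕ) :
    cc n * ((nu n - lam) * (nu n - 2⁻¹)) = nu n * ∑ x ∈ antidiagonal n, cc x.1 * cc x.2 := by
  by_cases h : n.1 + n.2 = 1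
  · rw [sum_eq_zero fun x hx => ?_]
    · obtain ⟨i, j⟩ := n
      obtain ⟨rfl, rfl⟩ | ⟨rfl, rfl⟩ : (i = 1 ∧ j = 0) ∨ (i = 0 ∧ j = 1) := by omega
      all_goals simp [nu]
    · rw [HasAntidiagonal.mem_antidiagonal, Prod.ext_iff, Prod.fst_add, Prod.snd_add] at hx
      have : x.1 = 0 ∨ x.2 = 0 := by simp only [Prod.ext_iff, Prod.fst_zero, Prod.snd_zero]; omega
      rcases this with e | e <;> simp [e, cc0]
  by_cases z : n = 0
  · simp [z, cc0]
  obtain ⟨m, hm⟩ : ∃ m, n.1 + n.2 = m + 1 :=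
    Nat.exists_eq_succ_of_ne_zero fun c => z (Prod.ext (by simp; omega) (by simp; omega))
  have a := dv n hm
  have b := lam_lo m (by omega)
  have : (nu n - lam) * (nu n - 2⁻¹) ≠ 0 := fun c => by
    rw [c, norm_zero, mul_zero, nu_norm] at a
    rw [nonpos_of_mul_nonpos_right a (by positivity) |>.antisymm (norm_nonneg _)] at b
    norm_num at b
  rw [cc2 h, mul_right_comm, div_mul_cancel₀ _ this]

lemma cc_bd (n : ℕ × ℕ) : ‖cc n‖ ≤ (4 * exp 11) ^ (n.1 + n.2) := by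
  obtain ⟨L, L0, L1, L2⟩ := davie (ε := fun m => ‖lam ^ m - 1‖) lam_lo (fun m d => by
    have : ‖lam ^ d - 1‖ = ‖lam ^ (m + d) - 1 - (lam ^ m - 1)‖ := by
      rw [sub_sub_sub_cancel_right, pow_add, ← mul_sub_one, norm_mul, norm_pow, lam_norm]
      simp
    exact this.trans_le (norm_sub_le _ _)) (n.1 + n.2)
  have k0 : ∀ n, 0 ≤ kap n := fun n => by unfold kap; positivity
  have : ∀ m, m ≤ n.1 + n.2 → ∀ x : ℕ × ℕ, x.1 + x.2 = m + 1 →
      ‖cc x‖ ≤ exp (7 * m + L m) * kap x := fun m => by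
    induction m using Nat.strong_induction_on with
    | _ m ih =>
    intro hm x hx
    rcases m.eq_zero_or_pos with rfl | m0
    · obtain ⟨i, j⟩ := x
      rw [cc1 hx]
      obtain ⟨rfl, rfl⟩ | ⟨rfl, rfl⟩ : (i = 1 ∧ j = 0) ∨ (i = 0 ∧ j = 1) := by omega
      all_goals simp [kap, L0]
    have e0 : 0 < ‖lam ^ m - 1‖ := pos_of_mul_pos_right (one_pos.trans_le (lam_lo m m0)) m.cast_nonneg
    have s : ‖∑ y ∈ antidiagonal x, cc y.1 * cc y.2‖ ≤
        exp (7 * m - 7) * (2 * ‖lam ^ m - 1‖ * exp (L m)) * (16 * kap x) := by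
      refine (norm_sum_le _ _).trans ((sum_le_sum fun y hy => ?_).trans
        ((mul_sum _ _ _).symm.trans_le (mul_le_mul_of_nonneg_left (kap_sum x) (by positivity))))
      have := k0 y.1
      have := k0 y.2
      rw [HasAntidiagonal.mem_antidiagonal, Prod.ext_iff, Prod.fst_add, Prod.snd_add] at hy
      by_cases z : y.1 = 0 ∨ y.2 = 0
      · rcases z with e | e <;> rw [e, cc0] <;> simp only [zero_mul, mul_zero, norm_zero] <;>
          have := k0 0 <;> positivity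
      simp only [Prod.ext_iff, Prod.fst_zero, Prod.snd_zero] at z
      obtain ⟨p, hp⟩ : ∃ p, y.1.1 + y.1.2 = p + 1 := Nat.exists_eq_succ_of_ne_zero (by omega)
      obtain ⟨q, hq⟩ : ∃ q, y.2.1 + y.2.2 = q + 1 := Nat.exists_eq_succ_of_ne_zero (by omega)
      obtain rfl : m = p + q + 1 := by omega
      rw [norm_mul]
      refine (mul_le_mul (ih p (by omega) (by omega) _ hp) (ih q (by omega) (by omega) _ hq)
        (norm_nonneg _) (by positivity)).trans ?_
      rw [mul_mul_mul_comm, ← exp_add, add_add_add_comm, exp_add]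
      gcongr
      · push_cast; linarith
      · exact L2 p q hm
    have d := dv x hx
    have n0 : 0 < ‖nu x‖ := by rw [nu_norm]; positivity
    rw [cc2 (by omega), norm_mul, norm_div]
    have d0 : 0 < ‖(nu x - lam) * (nu x - 2⁻¹)‖ := by nlinarith [mul_pos n0 e0]
    have d1 : ‖nu x‖ / ‖(nu x - lam) * (nu x - 2⁻¹)‖ ≤ 4 / ‖lam ^ m - 1‖ := by
      rwa [div_le_div_iff₀ d0 e0]
    refine (mul_le_mul d1 s (norm_nonneg _) (by positivity)).trans ?_
    have e7 : (2 : ℝ) ^ 7 ≤ exp 7 := by simpa only [Nat.cast_ofNat] using tpe 7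
    have := mul_le_mul_of_nonneg_right e7
      (mul_nonneg (mul_pos (exp_pos (7 * m - 7)) (exp_pos (L m))).le (k0 x))
    rw [show 7 * m + L m = 7 + (7 * m - 7 + L m) by ring, exp_add, exp_add]
    refine le_trans (le_of_eq ?_) (this.trans_eq (by ring))
    field_simp
    ring
  by_cases z : n = 0
  · simp [z, cc0]
  obtain ⟨m, hm⟩ : ∃ m, n.1 + n.2 = m + 1 :=
    Nat.exists_eq_succ_of_ne_zero fun c => z (Prod.ext (by simp; omega) (by simp; omega))
  refine (this m (by omega) n hm).trans ?_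
  rw [mul_pow, mul_comm, ← exp_nat_mul]
  gcongr
  · exact kap_le n
  · rw [hm]
    push_cast
    linarith [L1 m]

end Pool.Agent.H.MP_9ac7bc_an
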