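import Pool.Agent.H.MP_9ac7bc_an.A

namespace Pool.Agent.H.MP_9ac7bc_an

open Filter Topology Real Finset Metric

noncomputable def mon (p : ℂ × ℂ) (n : ℕ × ℕ) : ℂ := p.1 ^ n.1 * p.2 ^ n.2

noncomputable def Lam (p : ℂ × ℂ) : ℂ × ℂ := (lam * p.1, 2⁻¹ * p.2)

lemma mon_Lam (p : ℂ × ℂ) (n : ℕ × ℕ) : mon (Lam p) n = nu n * mon p n := by
  simp only [mon, Lam, nu, mul_pow]; ring

lemma mon_add (p : ℂ × ℂ) (m n : ℕ × ℕ) : mon p (m + n) = mon p m * mon p n := by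
  simp [mon, pow_add]; ring

lemma mon_le {p : ℂ × ℂ} {r : ℝ} (h : ‖p‖ ≤ r) (n : ℕ × ℕ) : ‖mon p n‖ ≤ r ^ (n.1 + n.2) := by
  have := (norm_nonneg _).trans h
  rw [mon, norm_mul, norm_pow, norm_pow, pow_add]
  gcongr
  exacts [(norm_fst_le p).trans h, (norm_snd_le p).trans h]

lemma mon_lip {p q : ℂ × ℂ} {r : ℝ} (hp : ‖p‖ ≤ r) (hq : ‖q‖ ≤ r) (i j : ℕ) :
    r * ‖mon p (i, j) - mon q (i, j)‖ ≤ (i + j : ℕ) * r ^ (i + j) * ‖p - q‖ := by
  have r0 := (norm_nonneg _).trans hp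
  have st : ∀ (n : ℕ) (a b x y : ℂ), ‖x‖ ≤ r → ‖b‖ ≤ r ^ n → ‖x - y‖ ≤ ‖p - q‖ →
      r * ‖a - b‖ ≤ n * r ^ n * ‖p - q‖ →
        r * ‖a * x - b * y‖ ≤ (n + 1 : ℕ) * r ^ (n + 1) * ‖p - q‖ := fun n a b x y h1 h2 h3 h4 => by
    have := (norm_add_le ((a - b) * x) (b * (x - y))).trans (add_le_add (norm_mul_le _ _)
      ((norm_mul_le _ _).trans (mul_le_mul h2 h3 (norm_nonneg _) (by positivity))))
    rw [show (a - b) * x + b * (x - y) = a * x - b * y by ring] at this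
    have := mul_le_mul_of_nonneg_left this r0
    have := mul_le_mul h4 h1 (norm_nonneg _) (by positivity)
    push_cast
    rw [pow_succ]
    linarith
  induction j with
  | zero =>
    induction i with
    | zero => simp [mon]
    | succ i ih =>
      simpa [mon, pow_succ] using st _ _ _ _ q.1 ((norm_fst_le p).trans hp) (mon_le hq (i, 0))
        (norm_fst_le (p - q)) ih
  | succ j ih =>
    simpa only [mon, pow_succ, mul_assoc, ← add_assoc] using st _ _ _ _ q.2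
      ((norm_snd_le p).trans hp) (mon_le hq (i, j)) (norm_snd_le (p - q)) ih

lemma geo : HasSum (fun n : ℕ × ℕ => (2⁻¹ : ℝ) ^ (n.1 + n.2)) 4 := by
  have h : HasSum (fun n : ℕ => (2⁻¹ : ℝ) ^ n) 2 := by simpa using hasSum_geometric_two
  have := h.mul h (h.summable.mul_of_nonneg h.summable (fun _ => by positivity)
    fun _ => by positivity)
  simp only [← pow_add] at this
  rwa [show (2 : ℝ) * 2 = 4 by norm_num] at this

noncomputable def UU (p : ℂ × ℂ) : ℂ := ∑' n, cc n * mon p n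

noncomputable def rr : ℝ := (6400 * (4 * exp 11) ^ 2)⁻¹

lemma rr0 : 0 < rr := by unfold rr; positivity

lemma rr1 : 2 * (4 * exp 11) * rr ≤ 2⁻¹ ∧ (2 * (4 * exp 11) * rr) ^ 2 * 1600 = rr := by
  have : 1 ≤ 4 * exp 11 := by linarith [one_le_exp (show (0 : ℝ) ≤ 11 by norm_num)]
  unfold rr
  generalize 4 * exp 11 = R at *
  refine ⟨?_, by field_simp; norm_num⟩
  rw [← div_eq_mul_inv, div_le_iff₀ (by positivity)]
  nlinarith

lemma sU {p : ℂ × ℂ} (h : ‖p‖ ≤ rr) : Summable fun n => ‖cc n * mon p n‖ := by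
  refine geo.summable.of_nonneg_of_le (fun _ => norm_nonneg _) fun n => ?_
  refine (norm_mul_le _ _).trans ((mul_le_mul (cc_bd n) (mon_le h n) (norm_nonneg _)
    (by positivity)).trans ?_)
  have : 0 ≤ 4 * exp 11 * rr := by have := rr0; positivity
  rw [← mul_pow]
  exact pow_le_pow_left₀ this (by linarith [rr1.1]) _

lemma Lam_le (p : ℂ × ℂ) : ‖Lam p‖ ≤ ‖p‖ := by
  refine max_le ?_ ?_ <;> simp only [Lam, norm_mul, lam_norm, norm_inv, Complex.norm_ofNat]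
  · simpa using norm_fst_le p
  · linarith [norm_snd_le p, norm_nonneg p]

lemma Lam_sub (p q : ℂ × ℂ) : Lam p - Lam q = Lam (p - q) := by simp [Lam, mul_sub]

lemma cau {f : ℕ × ℕ → ℂ} (h : Summable fun n => ‖f n‖) :
    (∑' n, f n) * ∑' n, f n = ∑' n, ∑ x ∈ antidiagonal n, f x.1 * f x.2 :=
  h.of_norm.tsum_mul_tsum_eq_tsum_sum_antidiagonal h.of_norm (summable_mul_of_summable_norm h h)

lemma UU_eq {p : ℂ × ℂ} (h : ‖p‖ ≤ rr) :
    UU (Lam (Lam p)) = UU (Lam p) ^ 2 + (lam + 2⁻¹) * UU (Lam p) - lam * 2⁻¹ * UU p := by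
  have h1 := (Lam_le p).trans h
  have s0 := (sU h).of_norm
  have s1 := (sU h1).of_norm
  have s2 := (sU ((Lam_le _).trans h1)).of_norm
  have := cau (sU h1)
  have e := ((s2.hasSum.sub (s1.hasSum.mul_left (lam + 2⁻¹))).add
    (s0.hasSum.mul_left (lam * 2⁻¹))).tsum_eq
  rw [sq, UU, UU, UU, this, eq_sub_iff_add_eq, ← sub_eq_iff_eq_add, ← sub_add_eq_add_sub, ← e]
  refine tsum_congr fun n => ?_
  rw [sum_congr rfl fun x hx => show _ = cc x.1 * cc x.2 * mon (Lam p) n by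
    rw [← HasAntidiagonal.mem_antidiagonal.1 hx, mon_add]; ring, ← sum_mul]
  simp only [mon_Lam]
  linear_combination mon p n * cc_eq n

lemma UU_lip {p q : ℂ × ℂ} (hp : ‖p‖ ≤ rr) (hq : ‖q‖ ≤ rr) :
    ‖UU p - UU q - ((p - q).1 + (p - q).2)‖ ≤ 100⁻¹ * ‖p - q‖ := by
  have a : HasSum (fun n : ℕ × ℕ => if n.1 + n.2 = 1 then mon p n - mon q n else 0)
      ((p - q).1 + (p - q).2) := by
    have := hasSum_sum_of_ne_finset_zero (L := .unconditional _) (s := {(1, 0), (0, 1)})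
      (f := fun n : ℕ × ℕ => if n.1 + n.2 = 1 then mon p n - mon q n else 0) fun n hn =>
        if_neg fun c => hn (by simp only [mem_insert, mem_singleton, Prod.ext_iff]; omega)
    simpa [mon] using this
  refine le_of_le_of_eq (((((sU hp).of_norm.hasSum.sub (sU hq).of_norm.hasSum).sub a).norm_le_of_bounded
    (geo.mul_left (400⁻¹ * ‖p - q‖)) fun n => ?_)) (by ring)
  split_ifs with h
  · rw [cc1 h]
    simp only [one_mul, sub_self, norm_zero]
    positivity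
  by_cases z : n = 0
  · simp only [z, cc0, zero_mul, sub_self, norm_zero]
    positivity
  obtain ⟨i, j⟩ := n
  obtain ⟨m, hm⟩ : ∃ m, i + j = m + 2 := by
    simp only [Prod.ext_iff, Prod.fst_zero, Prod.snd_zero] at z h
    exact ⟨i + j - 2, by omega⟩
  have r0 := rr0
  have b := mon_lip hp hq i j
  have c := cc_bd (i, j)
  simp only [hm] at b c ⊢
  have d : ((m + 2 : ℕ) : ℝ) ≤ 2 ^ (m + 2) := by exact_mod_cast Nat.lt_two_pow_self.le
  have e := pow_le_pow_left₀ (by positivity) rr1.1 m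
  refine le_of_mul_le_mul_left ?_ r0
  rw [sub_zero, ← mul_sub, norm_mul, mul_left_comm]
  refine (mul_le_mul c (b.trans (mul_le_mul_of_nonneg_right (mul_le_mul_of_nonneg_right d
    (by positivity)) (norm_nonneg _))) (by positivity) (by positivity)).trans ?_
  have := mul_le_mul_of_nonneg_left e (show 0 ≤ (2 * (4 * exp 11) * rr) ^ 2 * ‖p - q‖ by positivity)
  refine le_trans (le_of_eq (by generalize 4 * exp 11 = R; ring)) (this.trans_eq ?_)
  linear_combination (2⁻¹ ^ m * ‖p - q‖ / 1600) * rr1.2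

noncomputable def HH (p : ℂ × ℂ) : ℂ × ℂ := (UU p, UU (Lam p))

noncomputable def ff (z : ℂ × ℂ) : ℂ × ℂ := (z.2, z.2 ^ 2 + (lam + 2⁻¹) * z.2 - lam * 2⁻¹ * z.1)

theorem siegel : IsOpen (HH '' ball 0 rr) ∧ (∀ p ∈ ball 0 rr, ∀ q ∈ ball 0 rr,
    ‖HH p - HH q‖ ≤ 3 * ‖p - q‖ ∧ ‖p - q‖ ≤ 6 * ‖HH p - HH q‖) ∧
      ∀ p ∈ ball 0 rr, ff (HH p) = HH (Lam p) := by
  let T : ℂ × ℂ →L[ℂ] ℂ × ℂ := (ContinuousLinearMap.fst ℂ ℂ ℂ + .snd ℂ ℂ ℂ).prod
    (lam • .fst ℂ ℂ ℂ + (2⁻¹ : ℂ) • .snd ℂ ℂ ℂ)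
  have A : ApproximatesLinearOn HH T (ball 0 rr) 100⁻¹ := fun p hp q hq => by
    have hp := (mem_ball_zero_iff.1 hp).le
    have hq := (mem_ball_zero_iff.1 hq).le
    have := UU_lip ((Lam_le _).trans hp) ((Lam_le _).trans hq)
    rw [Lam_sub] at this
    refine max_le (by simpa [T, HH] using UU_lip hp hq) ?_
    simpa [T, HH, Lam] using this.trans (mul_le_mul_of_nonneg_left (Lam_le _) (by norm_num))
  have l : 2⁻¹ ≤ ‖lam - 2⁻¹‖ := by
    have := norm_sub_norm_le lam 2⁻¹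
    rw [lam_norm] at this
    norm_num at this ⊢
    exact this
  have l0 : lam - 2⁻¹ ≠ 0 := fun c => by rw [c] at l; norm_num at l
  have B : ∀ v, ‖v‖ ≤ 5 * ‖T v‖ := fun v => by
    have a : ‖v.1 + v.2‖ ≤ ‖T v‖ := norm_fst_le (T v)
    have b : ‖lam * v.1 + 2⁻¹ * v.2‖ ≤ ‖T v‖ := norm_snd_le (T v)
    have c := norm_sub_le (lam * (v.1 + v.2)) (lam * v.1 + 2⁻¹ * v.2)
    rw [show lam * (v.1 + v.2) - (lam * v.1 + 2⁻¹ * v.2) = (lam - 2⁻¹) * v.2 by ring, norm_mul,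
      norm_mul, lam_norm] at c
    have d := mul_le_mul_of_nonneg_right l (norm_nonneg v.2)
    have e := norm_sub_le (v.1 + v.2) v.2
    rw [add_sub_cancel_right] at e
    exact max_le (by linarith) (by linarith [norm_nonneg (T v)])
  have C : ∀ v, ‖T v‖ ≤ 2 * ‖v‖ := fun v => by
    have a := norm_fst_le v
    have b := norm_snd_le v
    refine max_le ((norm_add_le v.1 v.2).trans (by linarith))
      ((norm_add_le (lam * v.1) (2⁻¹ * v.2)).trans ?_)
    simp only [norm_mul, lam_norm, norm_inv, Complex.norm_ofNat]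
    linarith [norm_nonneg v]
  have I : ∀ u : ℂ × ℂ, T ((u.2 - 2⁻¹ * u.1) / (lam - 2⁻¹), (lam * u.1 - u.2) / (lam - 2⁻¹)) = u :=
    fun u => by
      refine Prod.ext ?_ ?_ <;> simp only [T, ContinuousLinearMap.prod_apply, add_apply, smul_apply,
        ContinuousLinearMap.coe_fst', ContinuousLinearMap.coe_snd', smul_eq_mul, ← mul_div_assoc,
        ← add_div, div_eq_iff l0] <;> ring
  refine ⟨A.open_image ⟨_, 5, fun u => (B _).trans_eq (by rw [I]; rfl), I⟩ isOpen_ball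
    (.inr (by norm_num)), fun p hp q hq => ?_, fun p hp => ?_⟩
  · have a : _ ≤ ((100⁻¹ : NNReal) : ℝ) * _ := A p hp q hq
    have b := norm_le_norm_add_norm_sub' (HH p - HH q) (T (p - q))
    have c := norm_le_norm_add_norm_sub (HH p - HH q) (T (p - q))
    rw [NNReal.coe_inv, NNReal.coe_ofNat] at a
    constructor <;> linarith [B (p - q), C (p - q), norm_nonneg (p - q)]
  · exact Prod.ext rfl (UU_eq (mem_ball_zero_iff.1 hp).le).symm

end Pool.Agent.H.MP_9ac7bc_an
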