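import Pool.Agent.H.MP_636246_an.A

namespace Pool.Agent.H.MP_9ac7bc_an

open MeasureTheory Filter Topology Real Finset Metric Pool.Agent.H.MP_636246_an

lemma low {X : Type} {k : ℕ} (T : Finset X) (nT : T.Nonempty) (nx : X → X → X)
    (ω : X → Fin k → ℝ) (ω0 : ∀ y j, 0 ≤ ω y j) (f : X → X) (P : X → Fin k) (β : X → ℝ)
    (R : X → X → Prop) (h : ∀ x y, R x y → exp (-β x) ≤ ω y (P x) ∧ ∃ t ∈ T, R (f x) (nx y t)) :
    ∀ n x y, R x y → exp (-(n * log #T + ∑ i ∈ range n, β (f^[i] x))) ≤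
      Q T nx ω n y fun i => P (f^[i] x) := by
  have T0 : (0 : ℝ) < #T := by exact_mod_cast nT.card_pos
  intro n
  induction n with
  | zero => simp [Q]
  | succ n ih =>
    intro x y d
    obtain ⟨b, t, ht, dt⟩ := h x y d
    have a := (ih (f x) (nx y t) dt).trans (single_le_sum
      (f := fun t => Q T nx ω n (nx y t) fun i => P (f^[i] (f x))) (fun _ _ => Q0 _ _ _ ω0 _ _ _) ht)
    refine le_trans (le_of_eq ?_) (mul_le_mul b (div_le_div_of_nonneg_right a T0.le)
      (by positivity) (ω0 _ _))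
    rw [sum_range_succ', Nat.cast_succ, show ∀ a b c d : ℝ, -((a + 1) * b + (c + d)) =
      -d + (-(a * b + c) + -b) from fun _ _ _ _ => by ring, exp_add, exp_add, exp_neg (log _),
      exp_log T0]
    simp only [Function.iterate_succ_apply, Function.iterate_zero_apply, div_eq_mul_inv]

lemma int_it {X : Type} [MeasurableSpace X] {ν : Measure X} {f : X → X}
    (hν : MeasurePreserving f ν ν) {β : X → ℝ} (iβ : Integrable β ν) (i : ℕ) :
    ∫ x, β (f^[i] x) ∂ν = ∫ x, β x ∂ν := by
  rw [← integral_map (hν.iterate i).aemeasurable (by rw [(hν.iterate i).map_eq]; exact iβ.1),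
    (hν.iterate i).map_eq]

lemma bound2 {f : ℂ × ℂ → ℂ × ℂ} (hf : ContDiff ℝ 1 f) : ∃ α : ℝ, 0 ≤ α ∧ ∀ ν, Inv f ν →
    (∀ᵐ z ∂ν, ‖z‖ ≤ 4) → ∀ N : Set (ℂ × ℂ), MeasurableSet N → (∀ ε > 0, ∃ S : Finset (ℂ × ℂ),
      ∀ x ∈ N, ∃ y ∈ S, ∀ i, dist (f^[i] x) (f^[i] y) ≤ ε) → ks f ν ≤ (α * ν.real Nᶜ : ℝ) := by
  classical
  obtain ⟨L, hL⟩ := hf.contDiffOn.exists_lipschitzOnWith one_ne_zero (convex_closedBall 0 5)
    (isCompact_closedBall 0 5)
  obtain ⟨T, -, hT, cT⟩ := finite_cover_balls_of_compact (isCompact_closedBall (0 : ℂ × ℂ) L) one_pos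
  lift T to Finset (ℂ × ℂ) using hT
  have nT : T.Nonempty := by
    obtain ⟨t, ht, -⟩ := Set.mem_iUnion₂.1 (cT (mem_closedBall_self L.2)); exact ⟨t, ht⟩
  have T1 : (1 : ℝ) ≤ #T := by exact_mod_cast nT.card_pos
  refine ⟨log #T, log_nonneg T1, fun ν ⟨_, hν⟩ hK N mN hN =>
    iSup_le fun k => iSup₂_le fun P hP => EReal.le_of_forall_lt_iff_le.1 fun r hr => ?_⟩
  replace hr := sub_pos.2 (EReal.coe_lt_coe_iff.1 hr)
  set δ := r - log #T * ν.real Nᶜ with hδ
  have k1 : (1 : ℝ) ≤ k := by exact_mod_cast (P 0).pos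
  obtain ⟨η, η0, η1⟩ : ∃ η : ℝ, 0 < η ∧ exp (-(δ / 4)) + η = 1 :=
    ⟨_, sub_pos.2 (exp_lt_one_iff.2 (by linarith : -(δ / 4) < 0)), add_sub_cancel _ _⟩
  have η2 : 1 ≤ k / η := by rw [le_div_iff₀ η0]; linarith [exp_pos (-(δ / 4))]
  choose B hB cB mB using fun j => (hP (.singleton j)).exists_isCompact_sdiff_lt (μ := ν)
    (measure_ne_top _ _) (ε := .ofReal (δ / 4 / (k / η) / k)) (by simp; positivity)
  obtain ⟨ε, ⟨e0, e1⟩, he⟩ : ∃ ε : ℝ, (0 < ε ∧ ε < 1) ∧ ∀ i j, i ≠ j → ∀ x ∈ B i, ∀ y ∈ B j,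
      2 * ε < dist x y := by
    refine (Eventually.and (f := 𝓝[>] (0 : ℝ)) (Ioo_mem_nhdsGT one_pos)
      (eventually_all.2 fun i => eventually_all.2 fun j => ?_)).exists
    by_cases h : i = j
    · simp [h]
    obtain ⟨s, s0, hs⟩ := exists_pos_forall_lt_edist (cB i) (cB j).isClosed
      (Set.disjoint_left.2 fun x a b => h ((hB i a).symm.trans (hB j b)))
    filter_upwards [Ioo_mem_nhdsGT (half_pos (NNReal.coe_pos.2 s0))] with ε hε _ x hx y hy
    have := hs x hx y hy
    rw [edist_nndist, ENNReal.coe_lt_coe, ← NNReal.coe_lt_coe, coe_nndist] at this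
    linarith [hε.2]
  obtain ⟨S1, -, hS, cS⟩ := finite_cover_balls_of_compact (isCompact_closedBall (0 : ℂ × ℂ) 4) e0
  lift S1 to Finset (ℂ × ℂ) using hS
  obtain ⟨S2, hS2⟩ := hN ε e0
  set S := S1 ∪ S2
  have nS : S.Nonempty := by
    obtain ⟨t, ht, -⟩ := Set.mem_iUnion₂.1 (cS (mem_closedBall_self zero_le_four))
    exact ⟨t, mem_union_left _ ht⟩
  have S0 : (0 : ℝ) < #S := by exact_mod_cast nS.card_pos
  obtain ⟨l, hl⟩ : ∃ l : ℂ × ℂ → Fin k, ∀ y j, ∀ z ∈ B j, dist z y ≤ ε → l y = j := by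
    refine ⟨fun y => if h : ∃ j, ∃ z ∈ B j, dist z y ≤ ε then h.choose else P 0, fun y j z hz d => ?_⟩
    have h : ∃ j, ∃ z ∈ B j, dist z y ≤ ε := ⟨j, z, hz, d⟩
    obtain ⟨z', hz', d'⟩ := h.choose_spec
    simp only [dif_pos h]
    by_contra c
    linarith [he _ _ c z' hz' z hz, dist_triangle_right z' z y]
  let ω (y : ℂ × ℂ) (j : Fin k) : ℝ := (if l y = j then exp (-(δ / 4)) else 0) + η / k
  let nx (y t : ℂ × ℂ) := f y + ε • t
  have ω0 (y j) : 0 ≤ ω y j := by positivity
  have ω1 (y) : ∑ j, ω y j = 1 := by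
    simp only [ω, sum_add_distrib, sum_ite_eq, mem_univ, if_true, sum_const, card_univ,
      Fintype.card_fin, nsmul_eq_mul]
    rwa [mul_div_cancel₀ _ (by positivity)]
  let β (z : ℂ × ℂ) : ℝ := δ / 4 + (⋃ j, B j)ᶜ.indicator (fun _ => log (k / η)) z
  have b : ∀ x y, dist x y ≤ ε → exp (-β x) ≤ ω y (P x) := fun x y d => by
    by_cases c : x ∈ ⋃ j, B j
    · obtain ⟨j, hj⟩ := Set.mem_iUnion.1 c
      simp only [β, ω, Set.indicator_of_notMem (Set.notMem_compl_iff.2 c),
        if_pos ((hl y j x hj d).trans (hB j hj).symm), add_zero]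
      exact le_add_of_nonneg_right (by positivity)
    · simp only [β, ω, Set.indicator_of_mem (Set.mem_compl c), neg_add, exp_add, exp_neg (log _),
        exp_log (one_pos.trans_le η2), inv_div]
      exact le_add_of_nonneg_of_le (by positivity) (mul_le_of_le_one_left (by positivity)
        (by linarith))
  have l1 := low T nT nx ω ω0 f P β (fun x y => (∀ i, ‖f^[i] x‖ ≤ 4) ∧ dist x y ≤ ε)
    fun x y ⟨hx, d⟩ => ⟨b x y d, by
      have x3 : ‖x‖ ≤ 4 := hx 0
      have := hL.dist_le_mul x (by simp; linarith) y (by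
        have := norm_le_norm_add_norm_sub' y x
        rw [dist_comm, dist_eq_norm] at d; simp; linarith)
      obtain ⟨t, ht, dt⟩ := Set.mem_iUnion₂.1 (cT (show ε⁻¹ • (f x - f y) ∈ closedBall 0 L by
        rw [mem_closedBall_zero_iff, norm_smul, norm_inv, norm_of_nonneg e0.le, inv_mul_le_iff₀ e0,
          ← dist_eq_norm, mul_comm]
        exact this.trans (by gcongr)))
      refine ⟨t, ht, fun i => hx (i + 1), ?_⟩
      rw [mem_ball, dist_eq_norm] at dt
      rw [dist_eq_norm, show f x - nx y t = ε • (ε⁻¹ • (f x - f y) - t) by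
        rw [smul_sub, smul_inv_smul₀ e0.ne', sub_sub], norm_smul, norm_of_nonneg e0.le]
      exact mul_le_of_le_one_right e0.le dt.le⟩
  have l2 := low {0} (singleton_nonempty _) (fun y _ => f y) ω ω0 f P β
    (fun x y => ∀ i, dist (f^[i] x) (f^[i] y) ≤ ε)
    fun x y h => ⟨b x y (h 0), 0, mem_singleton_self _, fun i => h (i + 1)⟩
  have mB' : MeasurableSet (⋃ j, B j)ᶜ := (MeasurableSet.iUnion fun j => (cB j).measurableSet).compl
  have iβ' : Integrable ((⋃ j, B j)ᶜ.indicator fun _ => log (k / η)) ν :=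
    (integrable_const _).indicator mB'
  have iβ : Integrable β ν := (integrable_const _).add iβ'
  have β1 : ∫ x, β x ∂ν ≤ δ / 2 := by
    have : ν.real (⋃ j, B j)ᶜ ≤ δ / 4 / (k / η) := by
      refine (measureReal_mono (s₁ := (⋃ j, B j)ᶜ) (s₂ := ⋃ j, P ⁻¹' {j} \ B j) fun x hx =>
        Set.mem_iUnion.2 ⟨P x, rfl, fun c => hx (Set.mem_iUnion.2 ⟨_, c⟩)⟩).trans
        ((measureReal_iUnion_fintype_le _).trans ((sum_le_card_nsmul _ _ _ fun j _ =>
          ENNReal.toReal_le_of_le_ofReal (by positivity) (mB j).le).trans ?_))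
      simp; field_simp; rfl
    rw [integral_add (integrable_const _) iβ', integral_indicator_const _ mB', smul_eq_mul]
    have := mul_le_mul this (log_le_self (by positivity)) (log_nonneg η2) (by positivity)
    rw [div_mul_cancel₀ _ (by positivity)] at this
    simp only [integral_const, probReal_univ, one_smul]
    linarith
  have key (n : ℕ) : Hn f ν P n ≤ log (2 * #S) + n * (r - δ / 2) := by
    let a (x : ℂ × ℂ) (i : Fin n) := P (f^[i] x)
    have ma : Measurable a := measurable_pi_lambda _ fun i => hP.comp (hν.measurable.iterate i)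
    have ib (i : ℕ) : Integrable (fun x => β (f^[i] x)) ν := ((hν.iterate i).integrable_comp iβ.1).2 iβ
    have i2 : Integrable (Nᶜ.indicator fun _ => n * log #T) ν :=
      (integrable_const _).indicator mN.compl
    have z1 := fun w y (_ : y ∈ S) => Q0 T nx ω ω0 n y w
    have z2 := fun w y (_ : y ∈ S) => Q0 {0} (fun y _ => f y) ω ω0 n y w
    have := gibbs ν ma (fun w => (∑ y ∈ S, Q T nx ω n y w +
      ∑ y ∈ S, Q {0} (fun y _ => f y) ω n y w) / (2 * #S)) (fun w => div_nonneg
        (add_nonneg (sum_nonneg (z1 w)) (sum_nonneg (z2 w))) (by positivity)) (by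
        rw [← sum_div, sum_add_distrib, sum_comm, sum_comm (t := S)]
        simp only [Q1 T nx ω ω1 nT, Q1 _ _ ω ω1 (singleton_nonempty _), sum_const, nsmul_eq_mul]
        rw [div_le_one (by positivity)]
        linarith)
      (fun x => log (2 * #S) + (Nᶜ.indicator (fun _ => n * log #T) x +
        ∑ i ∈ range n, β (f^[i] x)))
      ((integrable_const _).add (i2.add (integrable_finsetSum _ fun i _ => ib i))) (by
        filter_upwards [ae_all_iff.2 fun i => (hν.iterate i).quasiMeasurePreserving.ae hK] with x hx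
        rw [neg_add, exp_add, exp_neg, exp_log (by positivity), inv_mul_eq_div]
        refine div_le_div_of_nonneg_right ?_ (by positivity)
        by_cases c : x ∈ N
        · obtain ⟨y, hy, d⟩ := hS2 x c
          have := l2 n x y d
          rw [card_singleton, Nat.cast_one, log_one, mul_zero] at this
          rw [Set.indicator_of_notMem (Set.notMem_compl_iff.2 c)]
          exact le_add_of_nonneg_of_le (sum_nonneg (z1 _)) (this.trans (single_le_sum (z2 _)
            (mem_union_right _ hy)))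
        · obtain ⟨y, hy, d⟩ := Set.mem_iUnion₂.1 (cS (mem_closedBall_zero_iff.2 (hx 0)))
          rw [Set.indicator_of_mem (Set.mem_compl c)]
          exact le_add_of_le_of_nonneg ((l1 n x y ⟨hx, (mem_ball.1 d).le⟩).trans
            (single_le_sum (z1 _) (mem_union_left _ hy))) (sum_nonneg (z2 _)))
    rw [integral_add (integrable_const _) (by exact i2.add (integrable_finsetSum _ fun i _ => ib i)),
      integral_add i2 (integrable_finsetSum _ fun i _ => ib i), integral_finsetSum _ fun i _ => ib i,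
      integral_indicator_const _ mN.compl, sum_congr rfl fun i _ => int_it hν iβ i] at this
    simp only [integral_const, probReal_univ, smul_eq_mul, one_mul, sum_const, card_range,
      nsmul_eq_mul] at this
    refine le_trans (le_of_eq (sum_congr rfl fun w _ => ?_)) (this.trans ?_)
    · congr 2; ext x; simp [a, funext_iff]
    · have := mul_le_mul_of_nonneg_left β1 (Nat.cast_nonneg n)
      rw [show r = δ + log #T * ν.real Nᶜ by ring]
      nlinarith
  refine limsup_le_of_le (h := ?_)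
  filter_upwards [(tendsto_const_div_atTop_nhds_zero_nat (log (2 * #S))).eventually
    (gt_mem_nhds (half_pos hr)), eventually_gt_atTop 0] with n h n0
  have : (0 : ℝ) < n := by exact_mod_cast n0
  rw [div_lt_iff₀ this] at h
  exact EReal.coe_le_coe_iff.2 ((div_le_iff₀ this).2 (by linarith [key n]))

lemma ks0 (f : ℂ × ℂ → ℂ × ℂ) (ν : Measure (ℂ × ℂ)) [IsProbabilityMeasure ν] : 0 ≤ ks f ν := by
  refine le_iSup_of_le 1 (le_iSup₂_of_le (fun _ => 0) measurable_const (le_limsup_of_frequently_le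
    (.of_forall fun n => ?_)))
  exact_mod_cast div_nonneg (sum_nonneg fun _ _ =>
    negMulLog_nonneg measureReal_nonneg measureReal_le_one) n.cast_nonneg

end Pool.Agent.H.MP_9ac7bc_an
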