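import Pool.Agent.H.MP_9ac7bc_an.A

namespace Pool.Agent.H.MP_9ac7bc_an

open MeasureTheory Filter Topology Real Finset Metric AddCircle

noncomputable def ee (t : UnitAddCircle) : ℂ := toCircle t

noncomputable def th : UnitAddCircle := (√2 : ℝ)

noncomputable abbrev mm : Measure UnitAddCircle := haarAddCircle

lemma ee_add (s t : UnitAddCircle) : ee (s + t) = ee s * ee t := by simp [ee, toCircle_add]

lemma ee_norm (t : UnitAddCircle) : ‖ee t‖ = 1 := by simp [ee]

lemma ee_coe (x : ℝ) : ee (x : ℝ) = Complex.exp (Complex.I * (2 * π * x : ℝ)) := by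
  simp [ee, toCircle_apply_mk, mul_comm]

lemma ee_th : ee th = lam := ee_coe _

lemma ee_nsmul (n : ℕ) (t : UnitAddCircle) : ee (n • t) = ee t ^ n := by simp [ee, toCircle_nsmul]

lemma ee_cont : Continuous ee := continuous_subtype_val.comp continuous_toCircle

lemma ee_inj : Function.Injective ee := Subtype.val_injective.comp (injective_toCircle one_ne_zero)

lemma uniq (ν : Measure UnitAddCircle) [IsProbabilityMeasure ν]
    (h : MeasurePreserving (th + ·) ν ν) : ν = mm := by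
  have d : DenseRange (· • th : ℕ → UnitAddCircle) := denseRange_zsmul_iff_nsmul.1
    (denseRange_zsmul_coe_iff.2 (by simpa using irrational_sqrt_two))
  have : ν.IsAddLeftInvariant := ⟨fun a => ext_of_forall_integral_eq_of_IsFiniteMeasure fun g => by
    have e : ∀ a, ∫ x, g x ∂ν.map (a + ·) = ∫ x, g (a + x) ∂ν := fun a =>
      integral_map (measurable_const_add a).aemeasurable g.continuous.aestronglyMeasurable
    rw [e]
    refine d.induction_on a (isClosed_eq (continuous_of_dominated (bound := fun _ => ‖g‖)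
      (fun a => (g.continuous.comp (continuous_const_add a)).aestronglyMeasurable)
      (fun a => .of_forall fun x => g.norm_coe_le_norm _) (integrable_const _)
      (.of_forall fun x => by fun_prop)) continuous_const) fun n => ?_
    rw [← e, ← add_left_iterate, (h.iterate n).map_eq]⟩
  have e := Measure.isAddLeftInvariant_eq_smul ν mm
  have := congrArg (· Set.univ) e
  simp only [measure_univ, Measure.smul_apply, ENNReal.smul_def, smul_eq_mul, mul_one] at this
  rw [e, ENNReal.coe_eq_one.1 this.symm, one_smul]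

lemma thin {η : ℝ} (h : 0 < η) : ∃ s > 0, ∀ q : ℕ, 0 < q → ∀ w : ℂ,
    mm.real {t | |(ee t ^ q * w).re| < s * ‖w‖} ≤ η := by
  have c := ee_cont
  have m : ∀ s : ℝ, MeasurableSet {t | |(ee t).re| < s} := fun s =>
    (isOpen_lt (by fun_prop) continuous_const).measurableSet
  have z : ∀ w, mm (ee ⁻¹' {w}) = 0 := fun w => by
    rcases (Set.subsingleton_singleton.preimage ee_inj).eq_empty_or_singleton (s := ee ⁻¹' {w})
      with e | ⟨x, e⟩
    · simp [e]
    · simpa [e, volume_eq_smul_haarAddCircle] using AddCircle.volume_closedBall 1 (x := x) 0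
  have t := tendsto_measure_iInter_atTop (μ := mm)
    (s := fun n : ℕ => {t | |(ee t).re| < 1 / ((n : ℝ) + 1)}) (fun n => (m _).nullMeasurableSet)
    (fun a b h t ht => lt_of_lt_of_le (b := 1 / ((b : ℝ) + 1)) ht (by gcongr)) ⟨0, measure_ne_top _ _⟩
  rw [measure_mono_null (t := ee ⁻¹' {Complex.I} ∪ ee ⁻¹' {-Complex.I}) (fun t ht => ?_)
    (measure_union_null (z _) (z _))] at t
  · obtain ⟨n, hn⟩ := (t.eventually (gt_mem_nhds (ENNReal.ofReal_pos.2 h))).exists
    refine ⟨1 / ((n : ℝ) + 1), by positivity, fun q q0 w => ?_⟩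
    have p := (measurePreserving_add_left mm ((w.arg / (2 * π) : ℝ) : UnitAddCircle)).comp
      (Measure.measurePreserving_zsmul mm (n := q) (by omega))
    refine ENNReal.toReal_le_of_le_ofReal h.le (le_trans (measure_mono fun t ht => ?_)
      ((p.measure_preimage (m _).nullMeasurableSet).le.trans hn.le))
    have ht : |(ee t ^ q * w).re| < _ := ht
    change |(ee (_ + (q : ℤ) • t)).re| < _
    rw [ee_add, natCast_zsmul, ee_nsmul, ee_coe, mul_div_cancel₀ _ two_pi_pos.ne', mul_comm]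
    nth_rw 1 [← Complex.norm_mul_exp_arg_mul_I w] at ht
    rw [mul_left_comm, Complex.re_ofReal_mul, abs_mul, abs_norm, mul_comm, mul_comm (w.arg : ℂ)] at ht
    exact lt_of_mul_lt_mul_right ht (norm_nonneg _)
  · have a : (ee t).re = 0 := abs_nonpos_iff.1 (ge_of_tendsto'
      tendsto_one_div_add_atTop_nhds_zero_nat fun n => (Set.mem_iInter.1 ht n).le)
    have b := Complex.sq_norm (ee t)
    rw [ee_norm, Complex.normSq_apply, a] at b
    rcases mul_self_eq_one_iff.1 (show (ee t).im * (ee t).im = 1 by linarith) with e | e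
    · exact .inl (Complex.ext (by simpa) (by simpa))
    · exact .inr (Complex.ext (by simpa) (by simpa))

noncomputable def DD (q n : ℕ) : ℂ := ∑ i ∈ range n, (lam ^ q) ^ i

lemma DD1 (q n : ℕ) : ‖DD q n‖ ≤ n :=
  (norm_sum_le _ _).trans_eq (by simp [lam_norm])

lemma DD2 {q : ℕ} (h : 0 < q) (n : ℕ) : ‖DD q n‖ ≤ 2 * q := by
  have a := congrArg norm (geom_sum_mul (lam ^ q) n)
  have b := norm_sub_le ((lam ^ q) ^ n) 1
  rw [norm_mul] at a
  simp only [norm_pow, lam_norm, one_pow, norm_one] at b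
  have := mul_le_mul_of_nonneg_left (lam_lo q h) (norm_nonneg (DD q n))
  have := mul_le_mul_of_nonneg_left b (q.cast_nonneg : (0 : ℝ) ≤ q)
  rw [← a] at this
  unfold DD at *
  linarith

lemma DD3 {q n : ℕ} (h : q * ‖lam ^ q - 1‖ ≤ 7) (hn : 14 * n ≤ q) : (n : ℝ) ≤ 2 * ‖DD q n‖ := by
  have a : ∀ i : ℕ, ‖(lam ^ q) ^ i - 1‖ ≤ i * ‖lam ^ q - 1‖ := fun i => by
    rw [← geom_sum_mul, norm_mul]
    exact mul_le_mul_of_nonneg_right (DD1 q i) (norm_nonneg _)
  have hn : (14 * n : ℝ) ≤ q := by exact_mod_cast hn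
  have b : ‖DD q n - n‖ ≤ n * 2⁻¹ := by
    have := norm_sum_le_of_le (range n) fun i hi => (a i).trans (show _ ≤ (2⁻¹ : ℝ) by
      have : (i : ℝ) ≤ n := by exact_mod_cast (mem_range.1 hi).le
      nlinarith [mul_le_mul_of_nonneg_right (show 14 * (i : ℝ) ≤ q by linarith)
        (norm_nonneg (lam ^ q - 1))])
    simpa [DD] using this
  have := norm_sub_norm_le (n : ℂ) (DD q n)
  rw [norm_sub_rev, Complex.norm_natCast] at this
  linarith

noncomputable def qq : ℕ → ℕ
  | 0 => 1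
  | k + 1 => (lam_hi ((56 * 2 ^ (k + 1) * (k + 1) * (1 + 4 * qq k)) ^ 4)).choose

noncomputable def yy (k : ℕ) : ℝ := (qq k : ℝ) ^ (((4 : ℕ) : ℝ)⁻¹)

lemma yy4 (k : ℕ) : yy k ^ 4 = qq k := rpow_inv_natCast_pow (Nat.cast_nonneg _) four_ne_zero

lemma yy_ge (k : ℕ) : 56 * 2 ^ (k + 1) * (k + 1) * (1 + 4 * qq k) ≤ yy (k + 1) := by
  refine le_of_pow_le_pow_left₀ four_ne_zero (rpow_nonneg (Nat.cast_nonneg _) _) ?_
  rw [yy4]
  exact_mod_cast (lam_hi _).choose_spec.1

lemma yy_ge' (k : ℕ) : 56 * (1 + 4 * qq k) ≤ yy (k + 1) := by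
  refine le_trans ?_ (yy_ge k)
  have : (1 : ℝ) ≤ 2 ^ (k + 1) * (k + 1) :=
    one_le_mul_of_one_le_of_one_le (one_le_pow₀ one_le_two) (by simp)
  have : (0 : ℝ) ≤ qq k := by positivity
  nlinarith

lemma yy1 (k : ℕ) : 1 ≤ yy k := by
  rcases k with _ | k
  · simp [yy, qq]
  · linarith [yy_ge' k, (Nat.cast_nonneg _ : (0 : ℝ) ≤ qq k)]

lemma yy_le (k : ℕ) : yy k ≤ qq k := yy4 k ▸ le_self_pow₀ (yy1 k) four_ne_zero

lemma qq_mono : Monotone fun k => (qq k : ℝ) := monotone_nat_of_le_succ fun k => by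
  linarith [yy_ge' k, yy_le (k + 1), (Nat.cast_nonneg _ : (0 : ℝ) ≤ qq k)]

lemma qq0 (k : ℕ) : 0 < qq k := by exact_mod_cast one_pos.trans_le ((yy1 k).trans (yy_le k))

noncomputable def co (k : ℕ) : ℝ := 2⁻¹ ^ k / yy k

lemma co0 (k : ℕ) : 0 < co k := div_pos (by positivity) (one_pos.trans_le (yy1 k))

lemma co1 (k : ℕ) : co k ≤ 2⁻¹ ^ k := div_le_self (by positivity) (yy1 k)

lemma g2 : HasSum (fun n : ℕ => (2⁻¹ : ℝ) ^ n) 2 := by simpa using hasSum_geometric_two

noncomputable def GG (t : UnitAddCircle) : ℝ := ∑' k, co k * (ee t ^ qq k).re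

lemma tm (t : UnitAddCircle) (k : ℕ) (w : ℂ) : ‖co k * (ee t ^ qq k * w).re‖ ≤ co k * ‖w‖ := by
  rw [norm_mul, norm_of_nonneg (co0 k).le]
  refine mul_le_mul_of_nonneg_left ((Complex.abs_re_le_norm _).trans_eq ?_) (co0 k).le
  simp [ee_norm]

lemma GG_sum (t : UnitAddCircle) (n : ℕ) :
    HasSum (fun k => co k * (ee t ^ qq k * DD (qq k) n).re) (∑ i ∈ range n, GG (i • th + t)) := by
  have := hasSum_sum fun i (_ : i ∈ range n) => (g2.summable.of_norm_bounded
    (f := fun k => co k * (ee (i • th + t) ^ qq k).re) fun k => by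
      simpa using (tm (i • th + t) k 1).trans ((mul_le_of_le_one_right (co0 k).le
        norm_one.le).trans (co1 k))).hasSum
  refine this.congr_fun fun k => ?_
  rw [DD, mul_sum, Complex.re_sum, mul_sum]
  exact sum_congr rfl fun i _ => by
    rw [ee_add, ee_nsmul, ee_th, mul_pow, mul_comm (ee t ^ _), pow_right_comm]

lemma GG_unif {ε : ℝ} (h : 0 < ε) : ∀ᶠ n : ℕ in atTop, ∀ t,
    |∑ i ∈ range n, GG (i • th + t)| ≤ ε * n := by
  have b : ∀ n k : ℕ, ‖co k * ‖DD (qq k) n‖ / n‖ ≤ 2⁻¹ ^ k := fun n k => by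
    have := co0 k
    rw [norm_of_nonneg (by positivity), mul_div_assoc]
    exact (mul_le_of_le_one_right this.le (div_le_one_of_le₀ (DD1 _ _) n.cast_nonneg)).trans (co1 k)
  have := tendsto_tsum_of_dominated_convergence (𝓕 := atTop) (g := fun _ => (0 : ℝ)) g2.summable
    (f := fun n k : ℕ => co k * ‖DD (qq k) n‖ / n) (fun k => squeeze_zero
      (fun n => by have := co0 k; positivity) (fun n => div_le_div_of_nonneg_right
        (mul_le_mul_of_nonneg_left (DD2 (qq0 k) n) (co0 k).le) n.cast_nonneg)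
          (tendsto_const_div_atTop_nhds_zero_nat _)) (.of_forall b)
  rw [tsum_zero] at this
  filter_upwards [this.eventually (ge_mem_nhds h), eventually_gt_atTop 0] with n hn n0 t
  have n0 : (0 : ℝ) < n := by exact_mod_cast n0
  refine ((GG_sum t n).norm_le_of_bounded ((g2.summable.of_norm_bounded (b n)).hasSum.mul_right
    (n : ℝ)) fun k => ?_).trans (by gcongr)
  rw [div_mul_cancel₀ _ n0.ne']
  exact tm t k _

lemma GG_big {η : ℝ} (h : 0 < η) : ∃ᶠ n : ℕ in atTop,
    mm.real {t | |∑ i ∈ range n, GG (i • th + t)| < √n} ≤ η := by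
  obtain ⟨s, s0, hs⟩ := thin h
  refine frequently_atTop.2 fun N => ?_
  obtain ⟨k, k1, k2⟩ := ((eventually_ge_atTop N).and
    (tendsto_one_div_add_atTop_nhds_zero_nat.eventually (ge_mem_nhds s0))).exists
  have y1 := yy_ge k
  have y2 := yy_ge' k
  have y3 := yy_le (k + 1)
  have q0 : (0 : ℝ) ≤ qq k := by positivity
  have t1 : (1 : ℝ) ≤ 2 ^ (k + 1) := one_le_pow₀ one_le_two
  have k0 : (0 : ℝ) ≤ k := by positivity
  have q1 : 56 * (k + 1) ≤ qq (k + 1) := by
    have : 56 * ((k : ℝ) + 1) ≤ qq (k + 1) := by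
      nlinarith [mul_nonneg (mul_nonneg (sub_nonneg.2 t1) (add_nonneg k0 zero_le_one))
        (add_nonneg zero_le_one (mul_nonneg zero_le_four q0)), mul_nonneg k0 q0]
    exact_mod_cast this
  refine ⟨qq (k + 1) / 14, by omega, le_trans (measureReal_mono fun t ht => ?_)
    (hs _ (qq0 (k + 1)) (DD (qq (k + 1)) (qq (k + 1) / 14)))⟩
  have d := DD3 (q := qq (k + 1)) (lam_hi _).choose_spec.2 (Nat.mul_div_le _ 14)
  have n1 : (qq (k + 1) : ℝ) ≤ 28 * (qq (k + 1) / 14 : ℕ) := by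
    exact_mod_cast (by omega : qq (k + 1) ≤ 28 * (qq (k + 1) / 14))
  have n2 : ((qq (k + 1) / 14 : ℕ) : ℝ) ≤ qq (k + 1) := by exact_mod_cast Nat.div_le_self _ _
  generalize qq (k + 1) / 14 = n at *
  have ht : |∑ i ∈ range n, GG (i • th + t)| < √n := ht
  have r := (hasSum_ite_sub_hasSum (GG_sum t n) (k + 1)).norm_le_of_bounded
    (g2.mul_right (2 * qq k : ℝ)) fun j => by
      split_ifs with e
      · simp only [norm_zero]; positivity
      refine (tm t j _).trans ?_
      rcases lt_or_gt_of_ne e with e | e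
      · exact mul_le_mul (co1 j) ((DD2 (qq0 j) n).trans (by
          linarith [qq_mono (Nat.le_of_lt_succ e)])) (norm_nonneg _) (by positivity)
      obtain ⟨j, rfl⟩ := Nat.exists_eq_succ_of_ne_zero (Nat.ne_zero_of_lt e)
      have a := qq_mono (Nat.le_of_lt_succ e)
      have b := yy1 (j + 1)
      have c : (1 : ℝ) ≤ qq k := (yy1 k).trans (yy_le k)
      rw [co, div_mul_eq_mul_div, mul_div_assoc]
      gcongr
      refine (div_le_one_of_le₀ ?_ (by linarith)).trans (by linarith)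
      linarith [DD1 (qq (j + 1)) n, yy_ge' j, (Nat.cast_nonneg _ : (0 : ℝ) ≤ qq j)]
  have s1 : √n ≤ yy (k + 1) ^ 2 := sqrt_le_iff.2 ⟨by positivity, by
    rw [← pow_mul]; exact n2.trans (yy4 _).ge⟩
  have a := abs_sub (∑ i ∈ range n, GG (i • th + t)) (∑ i ∈ range n, GG (i • th + t) -
    co (k + 1) * (ee t ^ qq (k + 1) * DD (qq (k + 1)) n).re)
  rw [sub_sub_cancel, abs_mul, abs_of_pos (co0 _)] at a
  rw [norm_eq_abs] at r
  refine lt_of_mul_lt_mul_left (a.trans_lt ((add_lt_add_of_lt_of_le (ht.trans_le s1) r).trans_le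
    ?_)) (co0 _).le
  rw [← yy4 (k + 1)] at n1
  have y0 := yy1 (k + 1)
  rw [div_le_iff₀ (by positivity)] at k2
  rw [co, inv_pow, div_mul_eq_mul_div, le_div_iff₀ (by linarith), inv_mul_eq_div,
    le_div_iff₀ (by positivity)]
  generalize yy (k + 1) = y at *
  generalize ‖DD (qq (k + 1)) n‖ = D at *
  have e1 : y ^ 2 + 2 * (2 * qq k) ≤ y ^ 2 * (1 + 4 * qq k) := by
    nlinarith [mul_le_mul_of_nonneg_right (one_le_pow₀ y0 (n := 2)) q0]
  have e2 := mul_le_mul_of_nonneg_left y1 (show 0 ≤ s * y ^ 3 by positivity)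
  have e3 := mul_le_mul_of_nonneg_left k2
    (show 0 ≤ y ^ 3 * 2 ^ (k + 1) * (1 + 4 * (qq k : ℝ)) by positivity)
  have e4 := mul_le_mul_of_nonneg_left e1 (show 0 ≤ y * 2 ^ (k + 1) by positivity)
  have e5 := mul_le_mul_of_nonneg_left (show y ^ 4 ≤ 56 * D by linarith) s0.le
  linarith

end Pool.Agent.H.MP_9ac7bc_an
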