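import Pool.Agent.H.MP_9ac7bc_an.B
import Pool.Agent.H.MP_9ac7bc_an.C
import Pool.Agent.H.MP_9ac7bc_an.D

namespace Pool.Agent.H.MP_9ac7bc_an

open MeasureTheory Filter Topology Real Finset Metric Pool.Agent.H.MP_636246_an

lemma hold {X : Type} [PseudoMetricSpace X] {γ : UnitAddCircle → X}
    {K : ℝ} (K0 : 0 ≤ K) (h : ∀ s t, ‖ee s - ee t‖ ≤ K * dist (γ s) (γ t)) :
    ∃ (g : X → ℝ) (C : NNReal), HolderWith C 4⁻¹ g ∧ (∀ x, |g x| ≤ 2) ∧ ∀ t, g (γ t) = GG t := by
  have A : ∀ q : ℕ, ∃ u : X → ℝ, (∀ x y, |u x - u y| ≤ q * K * dist x y) ∧ (∀ x, |u x| ≤ 1) ∧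
      ∀ t, u (γ t) = (ee t ^ q).re := fun q => by
    have a : ∀ s t, |(ee s ^ q).re - (ee t ^ q).re| ≤ q * K * dist (γ s) (γ t) := fun s t => by
      have := mon_lip (p := (ee s, 0)) (q := (ee t, 0)) (r := 1) (by simp [ee_norm])
        (by simp [ee_norm]) q 0
      simp only [mon, pow_zero, mul_one, one_mul, add_zero, one_pow, Prod.mk_sub_mk, sub_self,
        Prod.norm_mk, norm_zero, max_eq_left (norm_nonneg _)] at this
      rw [← Complex.sub_re, mul_assoc]
      exact (Complex.abs_re_le_norm _).trans (this.trans (by gcongr; exact h s t))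
    obtain ⟨u, u1, u2⟩ := LipschitzOnWith.extend_real (s := Set.range γ) (K := .mk (q * K) (by positivity))
      (f := fun x => (ee (Function.invFun γ x) ^ q).re) (.of_dist_le_mul fun x hx y hy => by
        have := a (Function.invFun γ x) (Function.invFun γ y)
        rwa [Function.invFun_eq hx, Function.invFun_eq hy] at this)
    refine ⟨fun x => max (-1) (min 1 (u x)), fun x y =>
      ((u1.const_min 1).const_max (-1)).dist_le_mul x y, fun x =>
        abs_le.2 ⟨le_max_left _ _, max_le (by norm_num) (min_le_left _ _)⟩, fun t => ?_⟩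
    have b := abs_le.1 ((Complex.abs_re_le_norm (ee t ^ q)).trans_eq (c := 1) (by simp [ee_norm]))
    have := a (Function.invFun γ (γ t)) t
    rw [Function.invFun_eq (f := γ) ⟨t, rfl⟩, dist_self, mul_zero, abs_nonpos_iff, sub_eq_zero] at this
    simp only [← u2 ⟨t, rfl⟩, this, min_eq_right b.2, max_eq_right b.1]
  choose u u1 u2 u3 using A
  have b : ∀ x k, ‖co k * u (qq k) x‖ ≤ 2⁻¹ ^ k := fun x k => by
    rw [norm_mul, norm_of_nonneg (co0 k).le]
    exact (mul_le_of_le_one_right (co0 k).le (u2 _ _)).trans (co1 k)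
  have s := fun x => (g2.summable.of_norm_bounded (b x)).hasSum
  refine ⟨fun x => ∑' k, co k * u (qq k) x, .mk (4 * K ^ (4⁻¹ : ℝ)) (by positivity), fun x y => ?_,
    fun x => (s x).norm_le_of_bounded g2 (b x), fun t => by simp only [u3, GG]⟩
  have := ((s x).sub (s y)).norm_le_of_bounded (g2.mul_right (2 * (K * dist x y) ^ (4⁻¹ : ℝ)))
    fun k => by
      have y0 := one_pos.trans_le (yy1 k)
      rw [← mul_sub, norm_mul, norm_of_nonneg (co0 k).le, co, div_mul_eq_mul_div, mul_div_assoc]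
      gcongr
      rw [div_le_iff₀ y0, yy, Nat.cast_ofNat, mul_assoc, ← mul_rpow (by positivity) (by positivity)]
      have a := u1 (qq k) x y
      rw [mul_assoc, mul_comm] at a
      rcases le_total (K * dist x y * qq k) 1 with c | c
      · have := self_le_rpow_of_le_one (by positivity) c (show (4⁻¹ : ℝ) ≤ 1 by norm_num)
        linarith [norm_eq_abs (u (qq k) x - u (qq k) y), abs_nonneg (u (qq k) x - u (qq k) y)]
      · have := one_le_rpow c (show (0 : ℝ) ≤ 4⁻¹ by norm_num)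
        linarith [norm_eq_abs (u (qq k) x - u (qq k) y), abs_sub (u (qq k) x) (u (qq k) y),
          u2 (qq k) x, u2 (qq k) y]
  rw [edist_dist, edist_dist, ENNReal.ofReal_rpow_of_nonneg dist_nonneg (by positivity),
    ← ENNReal.ofReal_coe_nnreal, ← ENNReal.ofReal_mul (by positivity)]
  refine ENNReal.ofReal_le_ofReal (this.trans_eq ?_)
  rw [mul_rpow K0 dist_nonneg]
  simp only [NNReal.coe_mk, NNReal.coe_inv, NNReal.coe_ofNat]
  ring

theorem main {f H : ℂ × ℂ → ℂ × ℂ} (hf : ContDiff ℝ 1 f) (hb : ∀ ν, Inv f ν → ∀ᵐ z ∂ν, ‖z‖ ≤ 4)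
    (op : IsOpen (H '' ball 0 rr)) (bl : ∀ p ∈ ball 0 rr, ∀ q ∈ ball 0 rr,
      ‖H p - H q‖ ≤ 3 * ‖p - q‖ ∧ ‖p - q‖ ≤ 6 * ‖H p - H q‖)
    (cj : ∀ p ∈ ball 0 rr, f (H p) = H (Lam p)) :
    ∃ (φ g : ℂ × ℂ → ℝ) (C D : NNReal) (μ : Measure (ℂ × ℂ)), LipschitzWith C φ ∧
      pr f φ = (0 : ℝ) ∧ IsEq f φ μ ∧ (∀ ν, IsEq f φ ν → ν = μ) ∧ HolderWith D 4⁻¹ g ∧
      ∫ x, g x ∂μ = 0 ∧ (∀ ε > 0, ∀ᶠ n : ℕ in atTop, ∀ᵐ x ∂μ, |birkhoffSum f g n x| ≤ ε * n) ∧
      ∀ η > 0, ∃ᶠ n : ℕ in atTop, μ.real {x | |birkhoffSum f g n x| < √n} ≤ η := by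
  have r0 := rr0
  obtain ⟨α, α0, hα⟩ := bound2 hf
  have mf := hf.continuous.measurable
  let ι : UnitAddCircle → ℂ × ℂ := fun t => ((rr / 2 : ℝ) * ee t, 0)
  have ι1 : ∀ s t, ‖ι s - ι t‖ = rr / 2 * ‖ee s - ee t‖ := fun s t => by
    simp only [ι, Prod.mk_sub_mk, sub_self, Prod.norm_mk, norm_zero,
      ← mul_sub, norm_mul, Complex.norm_real, norm_of_nonneg (half_pos r0).le]
    exact max_eq_left (by positivity)
  have ι0 : ∀ t, ι t ∈ ball 0 rr := fun t => by
    simp [ι, ee_norm, abs_of_pos r0, r0]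
  let γ := fun t => H (ι t)
  have γ1 : ∀ s t, ‖ee s - ee t‖ ≤ 12 / rr * dist (γ s) (γ t) := fun s t => by
    have := (bl _ (ι0 s) _ (ι0 t)).2
    rw [ι1] at this
    rw [div_mul_eq_mul_div, le_div_iff₀ r0, dist_eq_norm]
    linarith
  have cγ : Continuous γ := (LipschitzOnWith.of_dist_le_mul (K := 3) fun p hp q hq => by
    simpa only [dist_eq_norm, NNReal.coe_ofNat] using (bl p hp q hq).1).continuousOn.comp_continuous
      (by have := ee_cont; fun_prop) ι0
  have iγ : Function.Injective γ := fun s t h => ee_inj (by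
    have := γ1 s t
    rwa [h, dist_self, mul_zero, norm_le_zero_iff, sub_eq_zero] at this)
  have eγ := (cγ.isClosedEmbedding iγ).measurableEmbedding
  have sγ : ∀ t, f (γ t) = γ (th + t) := fun t => (cj _ (ι0 t)).trans (congrArg H (by
    simp [ι, Lam, ee_add, ee_th, mul_left_comm]))
  have iv : Inv f (mm.map γ) := ⟨Measure.isProbabilityMeasure_map eγ.measurable.aemeasurable,
    mf, by
      rw [Measure.map_map mf eγ.measurable, show f ∘ γ = γ ∘ (th + ·) from funext sγ,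
        ← Measure.map_map eγ.measurable (measurable_const_add _), map_add_left_eq_self]⟩
  obtain ⟨δ, δ0, hδ⟩ := (isCompact_range cγ).exists_thickening_subset_open op
    (Set.range_subset_iff.2 fun t => ⟨_, ι0 t, rfl⟩)
  let ψ := fun x => min δ (infDist x (Set.range γ))
  have ψ0 : ∀ x, 0 ≤ ψ x := fun x => le_min δ0.le infDist_nonneg
  have ψ1 : LipschitzWith 1 ψ := (lipschitz_infDist_pt _).const_min δ
  have ψ2 : ∀ ν : Measure (ℂ × ℂ), IsProbabilityMeasure ν → Integrable ψ ν := fun ν _ =>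
    .of_bound ψ1.continuous.aestronglyMeasurable δ (.of_forall fun x =>
      (norm_of_nonneg (ψ0 x)).trans_le (min_le_left _ _))
  have st : ∀ ε > 0, ∃ S : Finset (ℂ × ℂ), ∀ x ∈ H '' ball 0 rr, ∃ y ∈ S, ∀ i,
      dist (f^[i] x) (f^[i] y) ≤ ε := fun ε e0 => by
    classical
    obtain ⟨S, S1, S2, S3⟩ := finite_approx_of_totallyBounded ((isCompact_closedBall (0 : ℂ × ℂ)
      rr).totallyBounded.subset ball_subset_closedBall) (ε / 3) (by positivity)
    lift S to Finset (ℂ × ℂ) using S2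
    refine ⟨S.image H, ?_⟩
    rintro _ ⟨p, hp, rfl⟩
    obtain ⟨q, hq, d⟩ := Set.mem_iUnion₂.1 (S3 hp)
    refine ⟨_, mem_image_of_mem _ hq, fun i => ?_⟩
    replace hq := S1 hq
    rw [mem_ball, dist_eq_norm] at d
    induction i generalizing p q with
    | zero => exact (dist_eq_norm _ _).trans_le ((bl p hp q hq).1.trans (by linarith))
    | succ i ih =>
      rw [Function.iterate_succ_apply, Function.iterate_succ_apply, cj p hp, cj q hq]
      rw [mem_ball_zero_iff] at hp hq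
      exact ih _ (mem_ball_zero_iff.2 ((Lam_le _).trans_lt hp)) _
        (by rw [Lam_sub]; exact (Lam_le _).trans_lt d) (mem_ball_zero_iff.2 ((Lam_le _).trans_lt hq))
  let φ := fun x => -(α / δ + 1) * ψ x
  have up : ∀ ν, Inv f ν → ks f ν + (∫ x, φ x ∂ν : ℝ) ≤ (-∫ x, ψ x ∂ν : ℝ) := fun ν hν => by
    have := hν.1
    refine (add_le_add_left (hα ν hν (hb ν hν) _ op.measurableSet st) _).trans ?_
    rw [← EReal.coe_add, integral_const_mul]
    have a := mul_meas_ge_le_integral_of_nonneg (.of_forall ψ0) (ψ2 ν this) δ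
    have b : ν.real (H '' ball 0 rr)ᶜ ≤ ν.real {x | δ ≤ ψ x} := measureReal_mono fun x hx =>
      le_min le_rfl (not_lt.1 fun c => hx (hδ ((mem_thickening_iff_infDist_lt
        (Set.range_nonempty γ)).2 c)))
    have := mul_le_mul_of_nonneg_left ((mul_le_mul_of_nonneg_left b δ0.le).trans a)
      (div_nonneg α0 δ0.le)
    rw [← mul_assoc, div_mul_cancel₀ _ δ0.ne'] at this
    exact EReal.coe_le_coe (by linarith)
  have up' := fun ν hν => (up ν hν).trans (EReal.coe_le_coe (neg_nonpos.2 (integral_nonneg ψ0)))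
  have lo : 0 ≤ ks f (mm.map γ) + (∫ x, φ x ∂mm.map γ : ℝ) := by
    have := iv.1
    rw [eγ.integral_map, integral_eq_zero_of_ae (.of_forall fun t => by
      simp [φ, ψ, infDist_zero_of_mem (Set.mem_range_self t), δ0.le])]
    simpa using ks0 f _
  have P0 : pr f φ = (0 : ℝ) := le_antisymm (iSup₂_le up') (le_iSup₂_of_le _ iv lo)
  obtain ⟨g, D, g1, g2, g3⟩ := hold (by positivity) γ1
  have cg := g1.continuous (by norm_num)
  have bs : ∀ n t, birkhoffSum f g n (γ t) = ∑ i ∈ range n, GG (i • th + t) := fun n t =>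
    sum_congr rfl fun i _ => by
      rw [← g3, ← add_left_iterate_apply, (Function.Semiconj.iterate_right
        (f := γ) (fun t => (sγ t).symm) i).eq]
  have U : ∀ ε > 0, ∀ᶠ n : ℕ in atTop, ∀ᵐ x ∂mm.map γ, |birkhoffSum f g n x| ≤ ε * n :=
    fun ε e0 => (GG_unif e0).mono fun n hn => eγ.ae_map_iff.2 (.of_forall fun t => bs n t ▸ hn t)
  refine ⟨φ, g, _, D, mm.map γ, (lipschitzWith_smul (-(α / δ + 1))).comp ψ1, P0,
    ⟨iv, P0 ▸ le_antisymm (up' _ iv) lo⟩, fun ν ⟨h, k⟩ => ?_, g1, ?_, U,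
    fun η e0 => (GG_big e0).mono fun n hn => ?_⟩
  · have := h.1
    have a := up ν h
    rw [k, P0, EReal.coe_le_coe_iff] at a
    have b : ∀ᵐ x ∂ν, x ∈ Set.range γ := by
      filter_upwards [(integral_eq_zero_iff_of_nonneg ψ0 (ψ2 ν this)).1
        (le_antisymm (by linarith) (integral_nonneg ψ0))] with x hx
      exact ((isCompact_range cγ).isClosed.mem_iff_infDist_zero (Set.range_nonempty γ)).2
        ((min_eq_iff.1 hx).resolve_left fun c => δ0.ne' c.1).1
    have c : (ν.comap γ).map γ = ν := by rw [eγ.map_comap, Measure.restrict_eq_self_of_ae_mem b]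
    have := eγ.isProbabilityMeasure_comap b
    rw [← c, uniq (ν.comap γ) ⟨measurable_const_add _, eγ.map_injective (by
      rw [Measure.map_map eγ.measurable (measurable_const_add _),
        show γ ∘ (th + ·) = f ∘ γ from funext fun t => (sγ t).symm,
        ← Measure.map_map mf eγ.measurable, c, h.2.map_eq])⟩]
  · have := iv.1
    have ig : Integrable g (mm.map γ) := .of_bound cg.aestronglyMeasurable 2 (.of_forall g2)
    refine abs_nonpos_iff.1 (le_of_forall_pos_le_add fun ε e0 => ?_)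
    obtain ⟨n, hn, n0⟩ := ((U ε e0).and (eventually_gt_atTop 0)).exists
    have a := norm_integral_le_of_norm_le_const (f := birkhoffSum f g n) hn
    simp only [birkhoffSum] at a
    rw [integral_finsetSum (f := fun i x => g (f^[i] x)) _ fun i _ =>
      ((iv.2.iterate i).integrable_comp ig.1).2 ig,
      sum_congr rfl fun i _ => int_it iv.2 ig i] at a
    simp only [sum_const, card_range, nsmul_eq_mul, norm_mul, norm_natCast, probReal_univ,
      mul_one, norm_eq_abs, Nat.abs_cast] at a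
    have n0 : (0 : ℝ) < n := by exact_mod_cast n0
    nlinarith
  · rw [measureReal_def, eγ.map_apply]
    simpa only [Set.preimage_ofPred_eq, bs, measureReal_def] using hn

lemma bdd {ν} (h : Inv ff ν) : ∀ᵐ z ∂ν, ‖z‖ ≤ 4 := by
  obtain ⟨_, h⟩ := h
  have big : ∀ z : ℂ × ℂ, ‖z.2‖ ^ 2 ≤ ‖(ff z).2‖ + 3 / 2 * ‖z.2‖ + 2⁻¹ * ‖z.1‖ := fun z => by
    have a := norm_add₃_le (a := (ff z).2) (b := -((lam + 2⁻¹) * z.2)) (c := lam * 2⁻¹ * z.1)
    have b := mul_le_mul_of_nonneg_right (norm_add_le lam 2⁻¹) (norm_nonneg z.2)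
    rw [show (ff z).2 + -((lam + 2⁻¹) * z.2) + lam * 2⁻¹ * z.1 = z.2 ^ 2 by simp only [ff]; ring] at a
    simp only [norm_neg, norm_mul, norm_pow, lam_norm, norm_inv, Complex.norm_ofNat] at a b
    linarith
  have a := shrink ν (fun n => {z | 4 + n ≤ ‖z.2‖ ∧ ‖z.1‖ ≤ ‖z.2‖}) (fun n => by measurability)
    (fun n z hz => ⟨by have := hz.1; push_cast at this; linarith, hz.2⟩) fun n => by
      rw [← h.measure_preimage (s := {z | 4 + ((n + 1 : ℕ) : ℝ) ≤ ‖z.2‖ ∧ ‖z.1‖ ≤ ‖z.2‖})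
        (MeasurableSet.nullMeasurableSet (by measurability))]
      refine measure_mono fun z ⟨h1, h2⟩ => ?_
      have := big z
      have n0 : (0 : ℝ) ≤ n := n.cast_nonneg
      change 4 + ((n + 1 : ℕ) : ℝ) ≤ _ ∧ ‖z.2‖ ≤ _
      push_cast
      constructor <;> nlinarith
  have b := shrink ν (fun n => {z | 4 + n ≤ ‖z.1‖ ∧ ‖z.2‖ ≤ ‖z.1‖}) (fun n => by measurability)
    (fun n z hz => ⟨by have := hz.1; push_cast at this; linarith, hz.2⟩) fun n => by
      rw [← h.measure_preimage (s := {z | 4 + (n : ℝ) ≤ ‖z.1‖ ∧ ‖z.2‖ ≤ ‖z.1‖})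
        (MeasurableSet.nullMeasurableSet (by measurability))]
      refine measure_mono fun z ⟨h1, h2⟩ => ?_
      have := big z
      have n0 : (0 : ℝ) ≤ n := n.cast_nonneg
      change 4 + (n : ℝ) ≤ ‖z.2‖ at h1
      change _ ≤ ‖z.2‖ at h2
      change 4 + ((n + 1 : ℕ) : ℝ) ≤ _ ∧ _
      push_cast
      constructor <;> nlinarith
  filter_upwards [a, b] with z a b
  by_contra! c
  obtain ⟨n, hn⟩ := exists_nat_gt ‖z‖
  rcases le_total ‖z.2‖ ‖z.1‖ with e | e
  · rw [Prod.norm_def, max_eq_left e] at c hn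
    linarith [(b ⟨by simpa using c.le, e⟩ n).1]
  · rw [Prod.norm_def, max_eq_right e] at c hn
    linarith [(a ⟨by simpa using c.le, e⟩ n).1]

end Pool.Agent.H.MP_9ac7bc_an
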